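import Mathlib

/-!
Project QK (helper664): projections of exponential algebraic sets `{z ∈ ℂ^4 : (z, e^z) ∈ W}` to `ℂ` are
countable or cocountable; and exponential-algebraic closedness in dimension three for varieties of all
dimensions.  Statements (interfaces), with complete proofs in the docstrings.
-/

set_option autoImplicit false

namespace Pool.Agent.H664.QK

open MvPolynomial Cardinal

/-- the exponential point `(z, e^z)` -/
noncomputable def ex {n : ℕ} (z : Fin n → ℂ) : Fin n ⊕ Fin n → ℂ :=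
  Sum.elim z (fun i => Complex.exp (z i))

/-! ### Varieties and function fields -/

/-- the action of integral matrices -/
noncomputable def actF {n : ℕ} {Ω : Type} [Field Ω] (M : Matrix (Fin n) (Fin n) ℤ)
    (p : Fin n ⊕ Fin n → Ω) : Fin n ⊕ Fin n → Ω :=
  Sum.elim (fun i => ∑ j, (M i j : Ω) * p (Sum.inl j)) (fun i => ∏ j, p (Sum.inr j) ^ M i j)

/-- among the `w i` there are `d` which are algebraically independent over `k` -/
def Tr (k : Type) {Ω ι : Type} [Field k] [Field Ω] [Algebra k Ω] (w : ι → Ω) (d : ℕ) : Prop :=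
  ∃ J : Finset ι, J.card = d ∧ AlgebraicIndependent k (fun j : J => w j)

/-- `(x, y)` is free and rotund over `k` -/
structure FRt (k : Type) {Ω : Type} [Field k] [Field Ω] [Algebra k Ω] {n : ℕ}
    (x y : Fin n → Ω) : Prop where
  y0 : ∀ i, y i ≠ 0
  add : ∀ m : Fin n → ℤ, m ≠ 0 → ∀ c : k, ∑ j, (m j : Ω) * x j ≠ algebraMap k Ω c
  mul : ∀ m : Fin n → ℤ, m ≠ 0 → ∀ c : k, ∏ j, y j ^ m j ≠ algebraMap k Ω c
  rot : ∀ M : Matrix (Fin n) (Fin n) ℤ,
    Tr k (actF M (Sum.elim x y)) (M.map (Int.cast : ℤ → ℚ)).rank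

/-- exponential-algebraic closedness for tuples `(x, y)` of transcendence degree `d` over fields `k`
which are isomorphic to `ℂ` -/
def Fld (n d : ℕ) : Prop := ∀ (k Ω : Type) [Field k] [Field Ω] [Algebra k Ω] (φ : k ≃+* ℂ)
  (x y : Fin n → Ω), FRt k x y → Tr k (Sum.elim x y) d → ¬ Tr k (Sum.elim x y) (d + 1) →
  ∃ z : Fin n → ℂ, ∀ g : MvPolynomial (Fin n ⊕ Fin n) k, aeval (Sum.elim x y) g = 0 →
    eval (ex z) (map (φ : k →+* ℂ) g) = 0

/-- irreducible varieties in `ℂ^n × (ℂ^*)^n` -/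
structure IsVr {n : ℕ} (I : Ideal (MvPolynomial (Fin n ⊕ Fin n) ℂ))
    (V : Set (Fin n ⊕ Fin n → ℂ)) : Prop where
  prime : I.IsPrime
  points : V = {p | (∀ f ∈ I, eval p f = 0) ∧ ∀ j : Fin n, p (Sum.inr j) ≠ 0}
  nonempty : V.Nonempty

/-- the coordinates with index in `J` are algebraically independent on `V` -/
def Idp {n : ℕ} (V : Set (Fin n ⊕ Fin n → ℂ)) (J : Finset (Fin n ⊕ Fin n)) : Prop :=
  ∀ f : MvPolynomial (Fin n ⊕ Fin n) ℂ, f.vars ⊆ J → (∀ p ∈ V, eval p f = 0) → f = 0

/-- free and rotund varieties -/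
structure FRv {n : ℕ} (V : Set (Fin n ⊕ Fin n → ℂ)) : Prop where
  add : ∀ m : Fin n → ℤ, m ≠ 0 → ∀ c : ℂ, ∃ p ∈ V, (∑ j : Fin n, (m j : ℂ) * p (Sum.inl j)) ≠ c
  mul : ∀ m : Fin n → ℤ, m ≠ 0 → ∀ c : ℂ, ∃ p ∈ V, (∏ j : Fin n, p (Sum.inr j) ^ (m j)) ≠ c
  rot : ∀ M : Matrix (Fin n) (Fin n) ℤ, ∃ J : Finset (Fin n ⊕ Fin n),
    J.card = (M.map (Int.cast : ℤ → ℚ)).rank ∧ Idp (actF M '' V) J

/-- exponential-algebraic closedness for varieties of dimension `d` -/
def Var (n d : ℕ) : Prop := ∀ (I : Ideal (MvPolynomial (Fin n ⊕ Fin n) ℂ))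
  (V : Set (Fin n ⊕ Fin n → ℂ)), IsVr I V → FRv V → (∃ J, J.card = d ∧ Idp V J) →
  (∀ J, J.card = d + 1 → ¬ Idp V J) → ∃ z : Fin n → ℂ, ex z ∈ V

/-- JOB FV. Proof. `ψ : k[X, Y] → Ω`, `aeval (x, y)`. `I` = the kernel of `f ↦ aeval (x, y) (map φ⁻¹ f)`, `f ∈ ℂ[X, Y]`, a prime ideal which contains no `X (inr i)` (`y0`). `V` = the set of its zeros with nonzero `y`-coordinates. `f` vanishes on `V` iff `f ∈ I`: if `f` vanishes on `V` then `f ∏ X (inr i)` vanishes at all zeros of `I`, so it is in `I`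
by the Nullstellensatz (`MvPolynomial.vanishingIdeal_zeroLocus_eq_radical`; or `nullst` in Pool.Agent.W333.ECV.A, see also Pool/Graph/R_pool_sql_team_seeded_3997aac3/Q98/EG/FLD.lean), and `I` is prime. So `Idp V J` iff `(x, y)_J` is algebraically independent over `k`; freeness and rotundity correspond
(for `actF M '' V`: `f (actF M ·)` times a monomial in the `Y` is a polynomial). The exponential point of `V` is the point we look for. -/
def S_fv : Prop := ∀ n d : ℕ, Var n d → Fld n d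

/-- JOB VF. Proof. `k = ℂ`, `φ` = identity, `Ω` = field of fractions of `ℂ[X, Y] / I`, `x, y` the classes of the coordinates. `f(x, y) = 0` iff `f ∈ I` iff `f` vanishes on `V` (Nullstellensatz, as `V` is not empty and `I` is prime: `f ∏ X (inr i) ∈ I`; see `exists_field` in Pool.Agent.W333.ECV.A and Q98/EG/FLD.lean). As in FV the conditions correspond.
The point `ex z` is a zero of `I` with nonzero `y`-coordinates. -/
def S_vf : Prop := ∀ n d : ℕ, Fld n d → Var n d

/-- JOB COV. Proof. Every `W i` is in the kernel of a nonzero linear form; so it contains the vector `(1, t, t^2, …, t^(N-1))` for finitely many `t` only. `k` is not countable. -/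
def S_cov : Prop := ∀ (k : Type) [Field k] [Uncountable k] (N : ℕ) (W : ℕ → Submodule k (Fin N → k)),
  (∀ i, W i ≠ ⊤) → ∃ v : Fin N → k, ∀ i, v ∉ W i

/-- JOB ISOX. Proof. `k₁` and `ℂ` are algebraically closed of characteristic zero and of transcendence degree continuum over the countable field `k₀`. Take transcendence bases over `k₀` (of the same cardinality) and `IsAlgClosed.equivOfTranscendenceBasis` or similar. -/
def S_isox : Prop := ∀ (k₀ : Type) [Field k₀] [Countable k₀] (k₁ : Type) [Field k₁] [IsAlgClosed k₁]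
  (a : k₀ →+* k₁) (b : k₀ →+* ℂ), #k₁ = 𝔠 → ∃ φ : k₁ ≃+* ℂ, ∀ c : k₀, φ (a c) = b c

/-- JOB UP1. Uses S_cov. Proof. For every `M` with `¬ Tr k (actF M (x, y)) (d + 1)` let `F_M` be the field of all elements of `Ω` which are algebraic over `k (actF M (x, y))`; its transcendence degree is at most `d`, so not all of `x_i, y_i` are in `F_M`. The `(a, b) ∈ k^(2n)` with `∑ a_i x_i + ∑ b_i y_i ∈ F_M` are a proper subspace.
There are countably many `M`, and `k` is not countable. -/
def S_up1 : Prop := ∀ (n d : ℕ) (k Ω : Type) [Field k] [Uncountable k] [Field Ω] [Algebra k Ω]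
  (x y : Fin n → Ω), Tr k (Sum.elim x y) (d + 1) →
  ∃ u ∈ IntermediateField.adjoin k (Set.range (Sum.elim x y)), ∀ M : Matrix (Fin n) (Fin n) ℤ,
    IsAlgebraic (IntermediateField.adjoin k (Set.range (actF M (Sum.elim x y)))) u →
    Tr k (actF M (Sum.elim x y)) (d + 1)

/-- JOB UP2. Proof. `k₁` = the algebraic closure of `k(u)` in `Ω`. `u` is transcendental over `k` (take `M = 0`: the coordinates of `actF 0 (x, y)` are `0` and `1`). If `u` is transcendental over `k(w)` then the transcendence degree of `k(w)` over `k` is the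
transcendence degree of `k₁(w)` over `k₁`; if `u` is algebraic over `k(w)` it is larger by one. So: the transcendence degree of `(x, y)` over `k₁` is `d`. `rot`: if the transcendence degree of `actF M (x, y)` over `k` is at most `d` then `u` is transcendental over it and the transcendence degree over `k₁` is the same; otherwise it is `d + 1`, and `d` over `k₁`,
and `rank M ≤ n ≤ d`. `add`: if `f = ∑ m_j x_j ∈ k₁` then, as `f ∉ k` and `k` is algebraically closed, `f` is transcendental over `k`, so `u` is algebraic over `k(f)`. For the matrix `M` with first row `m` and other rows zero `f` is one of the coordinates of `actF M (x, y)`, the others are `∏ y_j^(m_j)`, `0` and `1`;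
so `Tr k (actF M (x, y)) (d + 1)`, hence `d + 1 ≤ 2`, but `2 ≤ n ≤ d`. `mul`: the same. -/
def S_up2 : Prop := ∀ (n d : ℕ) (k Ω : Type) [Field k] [IsAlgClosed k] [Field Ω] [IsAlgClosed Ω]
  [Algebra k Ω] (x y : Fin n → Ω) (u : Ω), 2 ≤ n → n ≤ d → FRt k x y →
  Tr k (Sum.elim x y) (d + 1) → ¬ Tr k (Sum.elim x y) (d + 2) →
  u ∈ IntermediateField.adjoin k (Set.range (Sum.elim x y)) →
  (∀ M : Matrix (Fin n) (Fin n) ℤ,
    IsAlgebraic (IntermediateField.adjoin k (Set.range (actF M (Sum.elim x y)))) u →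
    Tr k (actF M (Sum.elim x y)) (d + 1)) →
  ∃ (k₁ : Type) (_ : Field k₁) (_ : IsAlgClosed k₁) (_ : Algebra k₁ Ω) (a : k →+* k₁),
    (∀ c, algebraMap k₁ Ω (a c) = algebraMap k Ω c) ∧ #k₁ ≤ max #k ℵ₀ ∧
    FRt k₁ x y ∧ Tr k₁ (Sum.elim x y) d ∧ ¬ Tr k₁ (Sum.elim x y) (d + 1)

/-- JOB UP. Uses S_up1, S_up2, S_isox. Proof. `(k, Ω, φ, x, y)` given, replace `Ω` by its algebraic closure. `u` from S_up1, `k₁` from S_up2 (`k ≃ ℂ` is uncountable and algebraically closed, `#k₁ = 𝔠`). The ideal of all `g ∈ k[X, Y]` with `g(x, y) = 0` is generated by finitely many `g_i`; let `k₀` be the countable subfield of `k`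
generated by their coefficients. S_isox with `k₀ → k → k₁` and `φ` on `k₀` gives `φ₁ : k₁ ≃ ℂ`. `Fld n d` for `(k₁, Ω, φ₁, x, y)` gives `z`, and `ex z` is a zero of the `φ₁ g_i = φ g_i`, hence of all `φ g`. -/
def S_up : Prop := ∀ n d : ℕ, 2 ≤ n → n ≤ d → Fld n d → Fld n (d + 1)

/-! ### Countable strong subfields of `ℂ` -/

/-- the Jacobian matrix of the functions `G_j(z, e^z)` at `t` -/
noncomputable def jac (K : Subfield ℂ) {n : ℕ} (G : Fin n → MvPolynomial (Fin n ⊕ Fin n) K)
    (t : Fin n → ℂ) : Matrix (Fin n) (Fin n) ℂ :=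
  Matrix.of fun j i => aeval (ex t) (pderiv (Sum.inl i) (G j)) +
    Complex.exp (t i) * aeval (ex t) (pderiv (Sum.inr i) (G j))

/-- `K` contains all nondegenerate zeros of systems of exponential polynomial equations over `K` -/
def Kh (K : Subfield ℂ) : Prop := ∀ (n : ℕ) (G : Fin n → MvPolynomial (Fin n ⊕ Fin n) K)
  (t : Fin n → ℂ), (∀ j, aeval (ex t) (G j) = 0) → (jac K G t).det ≠ 0 → ∀ i, t i ∈ K

/-- JOB NDZ. Proof. By the inverse function theorem every point of the set is isolated in the set (the map `t ↦ (G_j(t, e^t))_j` has an invertible derivative there, so it is injective near `t`), and a subset of `ℂ^n` all of whose points are isolated is countable (second countable). -/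
def S_ndz : Prop := ∀ (K : Subfield ℂ) (n : ℕ) (G : Fin n → MvPolynomial (Fin n ⊕ Fin n) K),
  {t : Fin n → ℂ | (∀ j, aeval (ex t) (G j) = 0) ∧ (jac K G t).det ≠ 0}.Countable

/-- JOB KCL. Uses S_ndz. Proof. `K_0` = the subfield generated by `A`, `K_{i+1}` = the subfield generated by `K_i` and the coordinates of all nondegenerate zeros of systems over `K_i` (countably many systems, as `K_i` is countable; `S_ndz`); `K` = the union. A system over `K` is a system over some `K_i` (finitely many coefficients). -/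
def S_kcl : Prop := ∀ A : Set ℂ, A.Countable →
  ∃ K : Subfield ℂ, (K : Set ℂ).Countable ∧ A ⊆ K ∧ Kh K

/-- JOB KPR. Proof. (1) `z` algebraic over `K`, `f` its minimal polynomial: `n = 1`, `G = f(X_0)`, the derivative is `f'(z) ≠ 0`. (2) `c ∈ K`: `n = 2`, `G_0 = X_0 - c`, `G_1 = X_1 - Y_0`, `t = (c, e^c)`, determinant `1`. (3) `e^z = c ∈ K`: `n = 1`, `G = Y_0 - c`, the derivative is `e^z`. -/
def S_kpr : Prop := ∀ K : Subfield ℂ, Kh K → (∀ z : ℂ, IsAlgebraic K z → z ∈ K) ∧
  (∀ z ∈ K, Complex.exp z ∈ K) ∧ ∀ z : ℂ, Complex.exp z ∈ K → z ∈ K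

/-- JOB DRV. Proof. `F = K(t, e^t)`, `I` = the ideal of all `g ∈ K[X, Y]` with `g(t, e^t) = 0`. For `g ∈ I` let `r(g) ∈ F^r` be the vector with the entries `(∂g/∂X_i + Y_i ∂g/∂Y_i)(t, e^t)`. If the `r(g)`, `g ∈ I`, span `F^r` over `F`, choose `G_1, …, G_r ∈ I` such that the `r(G_j)` are a basis; this is the first case.
Otherwise there is `v ∈ F^r`, `v ≠ 0`, with `∑_i r(g)_i v_i = 0` for all `g ∈ I`. The derivation `K[X, Y] → F` over `K` with `X_i ↦ v_i`, `Y_i ↦ e^{t_i} v_i` (`MvPolynomial.mkDerivation`) kills `I`, so it factors through `K[t, e^t]` and extends to the field of fractions `F`. -/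
def S_drv : Prop := ∀ (K : Subfield ℂ) (r : ℕ) (t : Fin r → ℂ),
  (∃ G : Fin r → MvPolynomial (Fin r ⊕ Fin r) K, (∀ j, aeval (ex t) (G j) = 0) ∧
    (jac K G t).det ≠ 0) ∨
  ∃ (D : Derivation K (IntermediateField.adjoin K (Set.range (ex t)))
      (IntermediateField.adjoin K (Set.range (ex t))))
    (x y : Fin r → IntermediateField.adjoin K (Set.range (ex t))),
    (∀ i, (x i : ℂ) = t i ∧ (y i : ℂ) = Complex.exp (t i)) ∧ (∀ i, D (y i) = y i * D (x i)) ∧
    ∃ i, D (x i) ≠ 0

/-- JOB AXF. Ax's theorem for a derivation of a subfield of `ℂ`. Proof. As in Pool/Agent/H356/EX/AxK.lean (`axK`): transport of the library theorem `Pool.Agent.Y562.SX.ax` (Pool.Graph.R_pool_sql_team_seeded_1acbe0a2.Y562.SX.Ax). `D` extends to `ℂ` (on a transcendence basis of `ℂ` over `F` by `0`, then to the separable algebraic extension): `D₀`.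
The derivations of `ℂ` over `cst D₀` which kill the `v j` kill the constants of `D` and the `v j`, so they kill all elements of `F` (algebraic over the field generated by these). -/
def S_axF : Prop := ∀ (F : Subfield ℂ) (D : Derivation ℚ F F) (n m : ℕ) (x y : Fin n → F)
  (v : Fin m → F), 0 < n → (∀ i, y i ≠ 0) → (∀ i, D (y i) = y i * D (x i)) →
  (∀ q : Fin n → ℚ, ∑ i, (q i : F) * D (x i) = 0 → q = 0) →
  (∀ f : F, IsAlgebraic (Subfield.closure ({c : F | D c = 0} ∪ Set.range v)) f) → n + 1 ≤ m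

/-- the `t i` are linearly independent over `ℚ` modulo `K` -/
def Ind (K : Subfield ℂ) {r : ℕ} (t : Fin r → ℂ) : Prop :=
  ∀ m : Fin r → ℤ, (∑ j, (m j : ℂ) * t j) ∈ K → m = 0

/-- JOB PK. Uses S_kpr, S_drv, S_axF. Proof by strong induction on `r`. Let `r > 0`, `Ind K t` and suppose that `F = K(t, e^t)` has transcendence degree at most `r` over `K`. By S_drv there are two cases. In the first `t_0 ∈ K` by `Kh K`, contradicting `Ind`. In the second case let `B ⊆ Fin r` be maximal such that the `D t_i`, `i ∈ B`, are linearly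
independent over `ℚ`; `B` is not empty. For `i ∉ B` there are integers `N_i ≠ 0` and `c_{ib}` with `D u_i = 0` for `u_i = N_i t_i - ∑_{b ∈ B} c_{ib} t_b`; then also `D e^{u_i} = 0`. The `u_i` satisfy `Ind K`. Let `C` be the field of constants of `D`, `K ⊆ C`, `q = r - #B < r`. By induction (if `q > 0`) the transcendence degree of `C` over `K` is
at least `q + 1`, and in any case at least `q`. Let `v` be a transcendence basis of `F` over `C`, with `m` elements; S_axF with `n = #B`, `x = (t_b)`, `y = (e^{t_b})` gives `#B + 1 ≤ m`. So the transcendence degree of `F` over `K` is at least `q + #B + 1 = r + 1`. Contradiction. -/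
def S_pk : Prop := ∀ K : Subfield ℂ, Kh K → ∀ (r : ℕ) (t : Fin r → ℂ), 0 < r → Ind K t →
  Tr K (ex t) (r + 1)

/-- countable strong subfields -/
structure Str (K : Subfield ℂ) : Prop where
  cnt : (K : Set ℂ).Countable
  alg : ∀ z : ℂ, IsAlgebraic K z → z ∈ K
  exp : ∀ z ∈ K, Complex.exp z ∈ K
  log : ∀ z : ℂ, Complex.exp z ∈ K → z ∈ K
  tr : ∀ (r : ℕ) (t : Fin r → ℂ), 0 < r → Ind K t → Tr K (ex t) (r + 1)

/-! ### Back and forth -/

/-- the algebraic closure of `K(S)` in `ℂ` -/
noncomputable def acl (K : Subfield ℂ) (S : Set ℂ) : Subfield ℂ :=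
  (algebraicClosure (IntermediateField.adjoin K S) ℂ).toSubfield

/-- `t` and `t'` satisfy the same equations over `K`, together with their exponentials -/
def Iso (K : Subfield ℂ) {q : ℕ} (t t' : Fin q → ℂ) : Prop :=
  ∃ σ : acl K (Set.range (ex t)) ≃+* acl K (Set.range (ex t')),
    (∀ a : acl K (Set.range (ex t)), (a : ℂ) ∈ K → (σ a : ℂ) = a) ∧
    (∀ (a : acl K (Set.range (ex t))) (i : Fin q), (a : ℂ) = t i → (σ a : ℂ) = t' i) ∧
    ∀ (a : acl K (Set.range (ex t))) (i : Fin q), (a : ℂ) = Complex.exp (t i) →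
      (σ a : ℂ) = Complex.exp (t' i)

/-- related tight tuples -/
structure Sta (K : Subfield ℂ) {q : ℕ} (t t' : Fin q → ℂ) : Prop where
  pos : 0 < q
  ind : Ind K t
  ind' : Ind K t'
  tight : ¬ Tr K (ex t) (q + 2)
  iso : Iso K t t'

/-- JOB STEP. Proof. `F = acl K (t, e^t)` and `F' = acl K (t', e^{t'})`, `σ : F → F'`, both have transcendence degree `q + 1` over `K` (`Str.tr`, `tight`, `σ`).
First case `a ∈ F`: `a' = σ a`. `Ind K (t', a')`: if `m·t' + k a' ∈ K` then apply `σ⁻¹` (which fixes `K`): `m·t + k a ∈ K`, so `m = 0`, `k = 0`. By `Str.tr` the transcendence degree of `K(t, a, e^t, e^a)` is at least `q + 2`, so `e^a` is transcendental over `F`, and `e^{a'}` over `F'`. So `σ` extends to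
`F(e^a) → F'(e^{a'})` and to the algebraic closures in `ℂ`.
Second case `e^a ∈ F`: `a'` = a logarithm of `σ(e^a)`. `Ind K (t', a')`: if `m·t' + k a' ∈ K` then its exponential is in `K`, it is `∏ e^{m_i t'_i} σ(e^a)^k`, so `e^{m·t + k a} = ∏ e^{m_i t_i} (e^a)^k ∈ K` and `m·t + k a ∈ K` by `Str.log`. Now `a` is transcendental over `F`, `a'` over `F'`, and `σ` extends as before. -/
def S_step : Prop := ∀ (K : Subfield ℂ), Str K → ∀ (q : ℕ) (t t' : Fin q → ℂ), Sta K t t' →
  ∀ a : ℂ, Ind K (Fin.snoc t a : Fin (q + 1) → ℂ) →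
  (a ∈ acl K (Set.range (ex t)) ∨ Complex.exp a ∈ acl K (Set.range (ex t))) →
  ∃ a' : ℂ, Sta K (Fin.snoc t a : Fin (q + 1) → ℂ) (Fin.snoc t' a' : Fin (q + 1) → ℂ)

/-- JOB BIG. Proof. `Ω` = the algebraic closure of the field of rational functions over `ℂ` in variables `ζ_i`, `i ∈ ℂ` (`#Ω = 𝔠`); `k` = the algebraic closure of `F(ζ)` in `Ω`, an algebraically closed field of cardinality `𝔠`. The `ζ` are algebraically independent over `ℂ`. If `w_j ∈ ℂ` are algebraically independent over `F`, then `w, ζ` are algebraically independent over `F`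
(`ζ` over `ℂ ⊇ F(w)`), so `w` over `F(ζ)`, and over its algebraic extension `k`. If `a ∈ ℂ ∩ k` then, applying this to the single element `a`, `a` is algebraic over `F`, so it is in `F`. -/
def S_big : Prop := ∀ F : Subfield ℂ, (F : Set ℂ).Countable → (∀ z : ℂ, IsAlgebraic F z → z ∈ F) →
  ∃ (k Ω : Type) (_ : Field k) (_ : Field Ω) (_ : Algebra k Ω) (j : ℂ →+* Ω) (i : F →+* k),
    IsAlgClosed k ∧ #k = 𝔠 ∧ (∀ c : F, algebraMap k Ω (i c) = j c) ∧
    (∀ (ι : Type) [Finite ι] (w : ι → ℂ), AlgebraicIndependent F w →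
      AlgebraicIndependent k (fun l => j (w l))) ∧
    ∀ a : ℂ, j a ∈ Set.range (algebraMap k Ω) → a ∈ F

/-- relations between `t, e^t, w, e^w` can be realised over `t'` -/
def Rel (K : Subfield ℂ) {q p : ℕ} (t t' : Fin q → ℂ) (w : Fin p → ℂ) : Prop :=
  ∃ w' : Fin p → ℂ, ∀ g : MvPolynomial ((Fin q ⊕ Fin q) ⊕ (Fin p ⊕ Fin p)) K,
    aeval (Sum.elim (ex t) (ex w)) g = 0 → aeval (Sum.elim (ex t') (ex w')) g = 0

/-- JOB LAST. Uses S_big, S_isox. Proof. `F, F', σ` as in STEP; `F`, `F'` are countable. `k, Ω, j, i` from S_big for `F`. S_isox for `k₀ = F`, `i : F → k` and `b = (F' ⊆ ℂ) ∘ σ` gives `φ : k ≃ ℂ` with `φ(i c) = σ c`. Let `x = j ∘ w`, `y = j ∘ exp w`. `FRt k x y`: `add`, `mul`: the last property of S_big and the hypothesis.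
`rot`: let `M` have rank `e`, choose `e` linearly independent rows, `u` = the corresponding entries of `M w` (`e` numbers); `(t, u)` satisfies `Ind K`, so `Tr K (ex (t, u)) (q + e + 1)` and, as `F` has transcendence degree `q + 1`, `u, e^u` has transcendence degree at least `e` over `F`; use S_big.
Let `d` be the transcendence degree of `w, e^w` over `F`, it is at least `p` (the case `M = 1`), and the same over `k`. `Fld p d` gives `z`. `w' = z`: if `g(t, e^t, w, e^w) = 0` let `g₁ ∈ k[X, Y]` be obtained by substituting `i(t), i(e^t)` (elements of `F`); `g₁(x, y) = 0`, so `φ g₁` vanishes at `ex z`, and `φ g₁` is `g` with `t', e^{t'}` substituted. -/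
def S_last : Prop := ∀ p : ℕ, 0 < p → (∀ d, p ≤ d → Fld p d) → ∀ (K : Subfield ℂ), Str K →
  ∀ (q : ℕ) (t t' : Fin q → ℂ), Sta K t t' → ∀ w : Fin p → ℂ, Ind K (Fin.append t w) →
  (∀ m : Fin p → ℤ, m ≠ 0 → (∑ j, (m j : ℂ) * w j) ∉ acl K (Set.range (ex t)) ∧
    Complex.exp (∑ j, (m j : ℂ) * w j) ∉ acl K (Set.range (ex t))) → Rel K t t' w

/-- JOB IND. Uses S_step, S_last. Proof by induction on `p`. `p = 0`: apply `σ` (`Iso`) to `g(t, e^t) = 0`. `p > 0`: if the hypothesis of S_last on `m` is satisfied use S_last. Otherwise there is `m ≠ 0` with `m·w ∈ F` or `e^{m·w} ∈ F`, `F = acl K (t, e^t)`; dividing `m` by the gcd of its entries we may assume that `m` is primitive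
(`F` is a field of characteristic zero, algebraically closed in `ℂ`). There is a unimodular matrix `M` with first row `m` (see S_latN), `M'` its inverse. `u = M w`, `a = u_0 = m·w`. S_step for `a`, and the induction hypothesis for `(t, a)`, `(t', a')` and `u_1, …, u_{p-1}` give `u'_1, …`; `u'_0 = a'`, `w' = M' u'`. A relation `g(t, e^t, w, e^w) = 0` is, after
multiplication with a monomial in the `e^{u_i}`, a polynomial relation between `t, e^t, u, e^u` (`w = M' u`). -/
def S_ind : Prop := ∀ N : ℕ, (∀ p, 0 < p → p ≤ N → ∀ d, p ≤ d → Fld p d) →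
  ∀ (K : Subfield ℂ), Str K → ∀ p ≤ N, ∀ (q : ℕ) (t t' : Fin q → ℂ), Sta K t t' →
  ∀ w : Fin p → ℂ, Ind K (Fin.append t w) → Rel K t t' w

/-- JOB LATN. Adapted bases for saturated subgroups. Proof. Smith normal form (`Submodule.smithNormalForm`); see `Pool.Agent.H390.FH.latt` in Pool/Agent/H390/FH/Latt.lean, or Pool/Agent/H106/EX/Lat.lean (`n = 3`). For the second assertion apply the first to the (saturated) subgroup `ℤ m`. -/
def S_latN : Prop := (∀ (n : ℕ) (L : AddSubgroup (Fin n → ℤ)),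
  (∀ (k : ℤ) (m : Fin n → ℤ), k ≠ 0 → k • m ∈ L → m ∈ L) →
  ∃ (q : ℕ) (M M' : Matrix (Fin n) (Fin n) ℤ), M * M' = 1 ∧ M' * M = 1 ∧
    ∀ m, m ∈ L ↔ ∀ j : Fin n, q ≤ j → Matrix.vecMul m M' j = 0) ∧
  ∀ (n : ℕ) (m : Fin (n + 1) → ℤ), m ≠ 0 → (∀ (k : ℤ) (m' : Fin (n + 1) → ℤ), m = k • m' →
    k = 1 ∨ k = -1) → ∃ M M' : Matrix (Fin (n + 1)) (Fin (n + 1)) ℤ, M * M' = 1 ∧ M' * M = 1 ∧
    M 0 = m

/-- JOB LATB. Proof. The subgroup `A = K + ∑ ℤ u_i` of `ℂ`; `A / K` is finitely generated and torsion-free (`K` is a `ℚ`-vector space), so it is free; `A₁` = the set of the `a ∈ A` with `k a ∈ K + ℤ u_0` for some `k ≠ 0`; `A₁ / K` is saturated in `A / K` and of rank one (`u_0 ∉ K`). Choose a basis of `A / K` whose first element spans `A₁ / K`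
(for example with S_latN or a complement of the saturated submodule), and `t` its representatives. The rank is at least one and at most `N + 1`. -/
def S_latb : Prop := ∀ (K : Subfield ℂ) (N : ℕ) (u : Fin (N + 1) → ℂ), u 0 ∉ K →
  ∃ (p : ℕ) (a : ℂ) (w : Fin p → ℂ) (κ : Fin (N + 1) → ℂ) (c : Fin (N + 1) → ℤ)
    (C : Fin (N + 1) → Fin p → ℤ), p ≤ N ∧ Ind K (Fin.append (fun _ : Fin 1 => a) w) ∧
    (∀ i, κ i ∈ K) ∧ (∀ i, u i = κ i + c i * a + ∑ j, (C i j : ℂ) * w j) ∧
    C 0 = 0 ∧ c 0 ≠ 0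

/-- JOB FIN. Uses S_ind, S_latb, S_kcl, S_kpr, S_pk. Proof. `X` = the set in question. The ideal generated by `W` is generated by a finite subset of `W`; let `K` be a countable subfield with `Kh K` which contains its coefficients (S_kcl); `Str K` by S_kpr, S_pk. If `X ⊆ K` then `X` is countable. Otherwise let `s ∈ X`, `s ∉ K`, and `z` the corresponding
point. We show that every `s' ∉ K` is in `X`. S_latb for `u = (s, z)`: `a, w, κ, c, C`, `t = (a)`, `a' = (s' - κ_0) / c_0`, `t' = (a')`. `Sta K t t'`: `a ∉ K`, `a' ∉ K`; `a, e^a` are algebraically independent over `K` by `Str.tr` (`r = 1`), and so are `a', e^{a'}`; so there is `σ`; `tight` is clear. S_ind gives `w'`. `z'_i = κ_{i+1} + c_{i+1} a' + ∑ C_{i+1,j} w'_j`.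
For `f ∈ W` (with coefficients in `K`) `f(s, z, e^s, e^z) = 0` is, after multiplication with a monomial in `e^a, e^{w_j}`, a polynomial relation over `K` between `a, e^a, w, e^w` (`e^{κ_i} ∈ K`), so it holds for `a', w'`, which means `f(s', z', e^{s'}, e^{z'}) = 0`. -/
def S_fin : Prop := ∀ N : ℕ, (∀ p, 0 < p → p ≤ N → ∀ d, p ≤ d → Fld p d) →
  ∀ W : Set (MvPolynomial (Fin (N + 1) ⊕ Fin (N + 1)) ℂ),
  {s : ℂ | ∃ z : Fin N → ℂ, ∀ f ∈ W, eval (ex (Fin.cons s z : Fin (N + 1) → ℂ)) f = 0}.Countable ∨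
  {s : ℂ | ∃ z : Fin N → ℂ, ∀ f ∈ W,
    eval (ex (Fin.cons s z : Fin (N + 1) → ℂ)) f = 0}ᶜ.Countable

end Pool.Agent.H664.QK
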