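import Pool.Agent.H664.QK.VarD
import Pool.Agent.H675.QK.NDZ
import Pool.Agent.H588.QK.Kcl
import Pool.Agent.H920.QK.Kpr
import Pool.Agent.H675.QK.DRV
import Pool.Agent.H914.QK.AxF
import Pool.Agent.H287.QK.PK
import Pool.Agent.H501.QK.BIG
import Pool.Agent.H218.QK.LAST
import Pool.Agent.H800.QK.IND
import Pool.Agent.H920.QK.LatN
import Pool.Agent.H120.QK.Latb
import Pool.Agent.H106.QK.Fin
import Pool.Agent.H27.QK.Step

/-! Project QK (helper664): projections of exponential algebraic sets with three quantified variables are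
countable or cocountable. -/

set_option autoImplicit false

namespace Pool.Agent.H664.QK

theorem s_kcl : S_kcl := Pool.Agent.H588.QK.kcl Pool.Agent.H675.QK.ndz
theorem s_kpr : S_kpr := Pool.Agent.H920.QK.kpr
theorem s_pk : S_pk := Pool.Agent.H287.QK.pk s_kpr Pool.Agent.H675.QK.drv Pool.Agent.H914.QK.axF
theorem s_last : S_last := Pool.Agent.H218.QK.last Pool.Agent.H501.QK.big s_isox
theorem s_ind : S_ind := Pool.Agent.H800.QK.ind Pool.Agent.H27.QK.step s_last Pool.Agent.H920.QK.latN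
theorem s_fin : S_fin :=
  Pool.Agent.H106.QK.fin s_ind Pool.Agent.H120.QK.latb s_kcl s_kpr s_pk

/-- projections of algebraic sets with three quantified variables -/
theorem three (W : Set (MvPolynomial (Fin 4 ⊕ Fin 4) ℂ)) :
    {s : ℂ | ∃ z : Fin 3 → ℂ, ∀ f ∈ W,
      MvPolynomial.eval (ex (Fin.cons s z : Fin 4 → ℂ)) f = 0}.Countable ∨
    {s : ℂ | ∃ z : Fin 3 → ℂ, ∀ f ∈ W,
      MvPolynomial.eval (ex (Fin.cons s z : Fin 4 → ℂ)) f = 0}ᶜ.Countable :=
  s_fin 3 fld3 W

end Pool.Agent.H664.QK
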