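import Pool.Agent.H664.EX.AllX
import Pool.Agent.H664.QK.Stm

/-! Project QK (helper664): assembly, the known cases of closedness. -/

set_option autoImplicit false

namespace Pool.Agent.H664.QK

open MvPolynomial Cardinal

/-- coordinates with pairwise dependent first entries: the curve case -/
theorem dep_of_not {n : ℕ} {V : Set (Fin n ⊕ Fin n → ℂ)}
    (h2 : ∀ i j : Fin n, i ≠ j → ¬ Idp V {Sum.inl i, Sum.inl j}) (i j : Fin n) :
    ∃ f : MvPolynomial (Fin 2) ℂ, f ≠ 0 ∧
      ∀ p ∈ V, eval ![p (Sum.inl i), p (Sum.inl j)] f = 0 := by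
  classical
  by_cases hij : i = j
  · refine ⟨X 0 - X 1, ?_, fun p _ => ?_⟩
    · intro h0
      have := congrArg (eval ![(1 : ℂ), 0]) h0
      simp at this
    · simp [hij]
  · have h3 := h2 i j hij
    unfold Idp at h3
    push Not at h3
    obtain ⟨f, hf1, hf2, hf3⟩ := h3
    -- rename
    let ι : Fin n ⊕ Fin n → MvPolynomial (Fin 2) ℂ := fun k =>
      if k = Sum.inl i then X 0 else if k = Sum.inl j then X 1 else 0
    refine ⟨bind₁ ι f, ?_, fun p hp => ?_⟩
    · intro h0
      apply hf3
      -- inverse renaming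
      have h4 : rename (![Sum.inl i, Sum.inl j] : Fin 2 → Fin n ⊕ Fin n) (bind₁ ι f) = f := by
        have h5 : ∀ k ∈ f.vars,
            rename (![Sum.inl i, Sum.inl j] : Fin 2 → Fin n ⊕ Fin n) (ι k) = X k := by
          intro k hk
          have := hf1 hk
          simp only [Finset.mem_insert, Finset.mem_singleton] at this
          rcases this with rfl | rfl
          · simp [ι]
          · have : (Sum.inl j : Fin n ⊕ Fin n) ≠ Sum.inl i := by
              intro h; exact hij (Sum.inl.inj h).symm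
            simp [ι, this]
        have h6 : (rename (![Sum.inl i, Sum.inl j] : Fin 2 → Fin n ⊕ Fin n) :
            MvPolynomial (Fin 2) ℂ →ₐ[ℂ] _) (bind₁ ι f) =
            bind₁ (fun k => rename (![Sum.inl i, Sum.inl j] : Fin 2 → Fin n ⊕ Fin n) (ι k)) f := by
          rw [rename_bind₁]
        rw [h6]
        have h8 : f = bind₁ X f := by rw [bind₁_X_left]; rfl
        conv_rhs => rw [h8]
        refine eval₂Hom_congr' rfl ?_ rfl
        intro k hk _
        exact h5 k hk
      rw [← h4, h0, map_zero]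
    · have h7 : eval ![p (Sum.inl i), p (Sum.inl j)] (bind₁ ι f) = eval p f := by
        rw [← MvPolynomial.coe_aeval_eq_eval, ← MvPolynomial.coe_aeval_eq_eval]
        simp only [RingHom.coe_coe]
        rw [aeval_bind₁]
        rw [aeval_def, aeval_def]
        refine eval₂Hom_congr' (f₁ := algebraMap ℂ ℂ) (f₂ := algebraMap ℂ ℂ) rfl ?_ rfl
        intro k hk _
        have := hf1 hk
        simp only [Finset.mem_insert, Finset.mem_singleton] at this
        rcases this with rfl | rfl
        · simp [ι]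
        · have : (Sum.inl j : Fin n ⊕ Fin n) ≠ Sum.inl i := by
            intro h; exact hij (Sum.inl.inj h).symm
          simp [ι, this]
      rw [h7]
      exact hf2 p hp

theorem var_curve {n d : ℕ} (hd : n ≤ d) {I : Ideal (MvPolynomial (Fin n ⊕ Fin n) ℂ)}
    {V : Set (Fin n ⊕ Fin n → ℂ)} (hV : IsVr I V) (hF : FRv V) (hJ : ∃ J, J.card = d ∧ Idp V J)
    (h2 : ∀ i j : Fin n, i ≠ j → ¬ Idp V {Sum.inl i, Sum.inl j}) :
    ∃ z : Fin n → ℂ, ex z ∈ V := by
  classical
  obtain ⟨z, hz, -⟩ := Pool.Agent.Q72.MX.all_VM n I V hV.prime hV.points hF.add hF.mul (by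
      obtain ⟨J0, hJ0, hJ0i⟩ := hJ
      exact ⟨J0, hJ0 ▸ hd, hJ0i⟩) ∅ (by
      intro i j
      have e : ∀ k : Fin n, Pool.Agent.Q72.MX.bs (∅ : Finset (Fin n)) k = Sum.inl k := by
        intro k
        simp [Pool.Agent.Q72.MX.bs]
      simp only [e]
      exact dep_of_not h2 i j) 1 (by
      obtain ⟨p, hp⟩ := hV.nonempty
      exact ⟨p, hp, by simp⟩)
  refine ⟨z, ?_⟩
  rw [hV.points]
  exact ⟨hz, fun j => Complex.exp_ne_zero _⟩

theorem var11 : Var 1 1 := by
  intro I V hV hF hJ _
  exact var_curve le_rfl hV hF hJ fun i j hij => absurd (Subsingleton.elim i j) hij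

theorem var22 : Var 2 2 := by
  classical
  intro I V hV hF hJ hJ'
  by_cases h1 : Idp V {Sum.inl 0, Sum.inl 1}
  · obtain ⟨z, hz⟩ := Pool.Agent.H553.EX.dom Pool.Agent.H664.EX.all_bm 2 I V
      ⟨hV.prime, hV.points, hV.nonempty⟩ ⟨hJ, hJ'⟩ (by
        have : (Finset.univ.image Sum.inl : Finset (Fin 2 ⊕ Fin 2)) =
            {Sum.inl 0, Sum.inl 1} := by decide
        rw [this]
        exact h1)
    exact ⟨z, hz⟩
  · refine var_curve le_rfl hV hF hJ fun i j hij => ?_
    have : ({Sum.inl i, Sum.inl j} : Finset (Fin 2 ⊕ Fin 2)) = {Sum.inl 0, Sum.inl 1} := by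
      fin_cases i <;> fin_cases j <;> first | exact absurd rfl hij | decide
    rw [this]
    exact h1

theorem var33 : Var 3 3 := by
  intro I V hV hF hJ hJ'
  exact Pool.Agent.H664.EX.all_v3 I V ⟨hV.prime, hV.points, hV.nonempty⟩ ⟨hJ, hJ'⟩ hF.add hF.mul
    hF.rot

/-- at most `2 n` coordinates -/
theorem tr_card {k Ω : Type} [Field k] [Field Ω] [Algebra k Ω] {n d : ℕ}
    {w : Fin n ⊕ Fin n → Ω} (h : Tr k w d) : d ≤ 2 * n := by
  obtain ⟨J, hJ, -⟩ := h
  have := Finset.card_le_univ J
  rw [hJ, Fintype.card_sum, Fintype.card_fin] at this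
  omega

/-- closedness for `n ≤ 3` -/
theorem fld_all (hfv : S_fv) (hup : S_up) : ∀ p, 0 < p → p ≤ 3 → ∀ d, p ≤ d → Fld p d := by
  have h2 : ∀ d, 2 ≤ d → Fld 2 d := by
    intro d hd
    induction d, hd using Nat.le_induction with
    | base => exact hfv 2 2 var22
    | succ d hd ih => exact hup 2 d le_rfl hd ih
  have h3 : ∀ d, 3 ≤ d → Fld 3 d := by
    intro d hd
    induction d, hd using Nat.le_induction with
    | base => exact hfv 3 3 var33
    | succ d hd ih => exact hup 3 d (by norm_num) hd ih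
  have h1 : ∀ d, 1 ≤ d → Fld 1 d := by
    intro d hd
    rcases Nat.lt_or_ge 1 d with hd1 | hd1
    · rcases Nat.lt_or_ge 2 d with hd2 | hd2
      · intro k Ω _ _ _ φ x y _ h _
        have := tr_card h
        omega
      · obtain rfl : d = 2 := by omega
        intro k Ω _ _ _ φ x y _ h _
        obtain ⟨J, hJ, hi⟩ := h
        have hJu : J = Finset.univ := by
          rw [← Finset.card_eq_iff_eq_univ, hJ, Fintype.card_sum, Fintype.card_fin]
        refine ⟨0, fun g hg => ?_⟩
        have hinj : AlgebraicIndependent k (Sum.elim x y) := by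
          have e : (Sum.elim x y) = (fun j : J => (Sum.elim x y) j) ∘
              (fun j : Fin 1 ⊕ Fin 1 => (⟨j, by rw [hJu]; exact Finset.mem_univ _⟩ : J)) := rfl
          rw [e]
          refine hi.comp _ ?_
          intro a b hab
          exact congrArg (fun z : J => (z : Fin 1 ⊕ Fin 1)) hab
        have : g = 0 := by
          have := (injective_iff_map_eq_zero _).1 hinj g hg
          exact this
        rw [this, map_zero, map_zero]
    · obtain rfl : d = 1 := by omega
      exact hfv 1 1 var11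
  intro p hp hp3
  interval_cases p
  · exact h1
  · exact h2
  · exact h3

end Pool.Agent.H664.QK
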