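import Pool.Agent.H664.QK.Asm
import Pool.Agent.H738.QK.FV
import Pool.Agent.H233.QK.VF
import Pool.Agent.H385.QK.COV
import Pool.Agent.H800.QK.ISOX
import Pool.Agent.H548.QK.UP1
import Pool.Agent.H501.QK.UP2
import Pool.Agent.H332.QK.Up

/-! Project QK (helper664): exponential-algebraic closedness for `n ≤ 3`, all dimensions. -/

set_option autoImplicit false

namespace Pool.Agent.H664.QK

theorem s_cov : S_cov := Pool.Agent.H385.QK.cov
theorem s_isox : S_isox := Pool.Agent.H800.QK.isox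
theorem s_up1 : S_up1 := Pool.Agent.H548.QK.up1 s_cov
theorem s_up : S_up := Pool.Agent.H332.QK.up s_up1 Pool.Agent.H501.QK.up2 s_isox
theorem s_fv : S_fv := Pool.Agent.H738.QK.fv

theorem fld3 : ∀ p, 0 < p → p ≤ 3 → ∀ d, p ≤ d → Fld p d := fld_all s_fv s_up

theorem var3 {d : ℕ} (hd : 3 ≤ d) : Var 3 d :=
  Pool.Agent.H233.QK.vf 3 d (fld3 3 (by norm_num) le_rfl d hd)

end Pool.Agent.H664.QK
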